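import Pool.Agent.Helper6.SH.All2
import Pool.Agent.Helper6.SH.Gen
import Pool.Graph.R_pool_sql_team_seeded_b677cdb8.E8helper36.SQ.Icc
import Pool.Graph.R_pool_sql_team_seeded_b677cdb8.E8helper36.SQ.Ell
import Pool.Graph.R_pool_sql_team_seeded_b677cdb8.E8helper36.SQ.Fan
import Pool.Graph.R_pool_sql_team_seeded_b677cdb8.E8helper38.SQ.Mob
import Pool.Graph.R_pool_sql_team_seeded_b677cdb8.E8helper38.SQ.Ode
import Pool.Graph.R_pool_sql_team_seeded_b677cdb8.E8helper63.SQ.Lim
import Pool.Graph.R_pool_sql_team_seeded_b677cdb8.E8helper63.SQ.Strip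

/-!
# Problem (S) when a differential expression of the Riemann map is algebroid

Let `Ω = φ(D)`, where `φ` is holomorphic and injective in a disc `|w| < r`, `r > 1`, and `D` is the
open unit disc (by a theorem of Williams every domain on which problem (S) has a solution is of this
kind). Suppose that (S) has a nontrivial solution on `Ω`.

Let `X` be one of the following: a derivative `φ^(n)` of any order `n`, `φ'' / φ'`, the Schwarzian
derivative `S(φ)`, `φ' - h φ`, or `φ'' - h φ'`. Suppose that `X` is algebroid of degree at most `d`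
in `|w| > 1`: `∑ c k w * X w ^ k = 0`, `k ≤ d`, for `1 < |w| < r`, where the coefficients (and `h`)
are holomorphic in `|w| > 1` off a relatively closed countable set `A` (with arbitrary singularities
there), `c d` not identically zero. Then `Ω` is a disc, or a branch of the Schwarz function of the
boundary has a cusp at infinity over a point `z0 = φ (1 / conj w1)` of `Ω`, `|w1| > 1`: it is
`E t / t ^ q` for `z = z0 + t ^ q`, where `q ≥ 2` (and `q ≤ d` for the first three kinds of `X`),
`E 0 ≠ 0`, the exponent `n` of the first nonvanishing term of the power series of `E` that is not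
divisible by `q` satisfies `n > 2 q`, and there is a coincidence of zeros of Bessel functions:
`J_1 (x) = J_{-n / q} (x) = 0` for `x ^ 2 = lam * E 0`. (For `d = 1` and the first three kinds there
is no such `q`, so `Ω` is a disc.)

The same is true, without a bound for `q`, if near some point `φ` or `φ'` is a combination
`h 0 + ∑ h k * y k` of solutions of first order linear equations `y k' = a y k + g k` with the same
`a`, where `a`, the `h k` and the `g k` are algebroid germs, with arbitrary singularities at a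
countable set. These are the algebroid combinations of abelian integrals (`a = 0`), the iterated
integrals of length two of algebroid functions (`φ'` of this kind), and the solutions of
`φ' = a φ + g` and `φ'' = a φ' + g`.

So the Riemann map can be a quotient of solutions of `y'' = Q y`, an iterated primitive of an
algebroid function, an iterated integral of length two of algebroid functions, or a solution of a
first order linear equation with multivalued coefficients. The branches of `φ` can have infinitely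
many values near a singular point. The conclusion is the one which was known for algebraic
boundaries.

Locally: let `Ω` not be a disc, let `B` be an open disc in `|w| > 1`, and let `g` be a branch of the
continuation of `φ` at a point of `B` for which one of these expressions is algebroid of degree at
most `d` in `B` minus a countable relatively closed set, or such that `g` or `g'` is such a
combination. Then `g` extends holomorphically to `B`, or there is a cusp as above with `w1` in `B`.

The theorem on the local monodromy behind this: let `g` be continued along all paths in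
`0 < |w - x| < ρ`, a disc in `|w| > 1`, and let `g_j` be the result of `j` turns. If
`g_N = (a g + b) / (c g + d)`, or `g_2N - g_N = κ (g_N - g) + c`, with constants, then `g` extends
to the disc or there is a cusp as above. The same is true for a branch in a disc which belongs to a
class of germs that is closed under continuation off a countable relatively closed set and has such
a monodromy along the circles; globally, if `φ` belongs to such a class in `|w| > 1`, then `Ω` is a
disc or there is a cusp.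

The proof of the linear case (modules `Helper6/SG`): if the monodromy adds a nonconstant function
`U` in this way, then the branches of the Schwarz function contain the family `T + s U + const` for
infinitely many values of `s`, and the basic identity `∫ J (x (T + s U)) dz = 0`, `J` a Bessel
kernel, over one turn is an entire function of `s` of order `1 / 2` with too many zeros. So it holds
for all `s`. By differentiation in `s` and in the starting point one gets
`∫ J (x T) U ^ k dz = 0` for all `k` and all starting points. At a starting point where `|U|` is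
maximal on the turn, another derivative in the starting point and `k → ∞` (concentration) show
first that `U` takes the same value at both ends of the turn, then that `T` does; so everything is
periodic, a contradiction.

The proof of the other cases (modules `Helper6/SF`): among `d + 1` consecutive continuations of `g`
around an isolated singularity two have the same Schwarzian derivative, hence, in the coordinate
`w = w1 + exp τ`, `G (τ + 2 π i q) = M (G τ)`, `M` a Moebius transformation. If `M` has infinite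
order, then the identities show that the Schwarz function is constant. If `M` has finite order, then
the Schwarz function is a Laurent series in `exp (σ / q)`, with at most a logarithm; essential
singularities and wrong rates of growth are excluded by the Laplace method, the logarithm by the
second order of the expansion, and the remaining case is the cusp.

For classes of germs (modules `Helper6/SH`): the circles which avoid the countable set give the
relation for the continuation around an isolated singularity, and the set of the singularities is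
countable and closed, so it has isolated points. The combinations are such a class.

Most modules of `Helper6/SG` and `Helper6/SH` were written by helpers 2, 14, 22, 33, 44, 50, 63, 71,
77, 90 and 99.
-/

set_option autoImplicit false

open MeasureTheory Metric Set Filter Topology ComplexConjugate

namespace Pool.Agent.Results.MP_83fd13_an.AlgebroidSchwarzian

/-- The overdetermined problem (S) in the plane `ℂ`: `-Δu = lam u` in `Ω`, `∂u/∂n = 0` on `∂Ω`,
`u = c` on `∂Ω` has a nontrivial weak solution `u` for some real constant `c`; `G` is the weak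
gradient of `u`, and both boundary conditions are expressed by testing with functions that need not
vanish on `∂Ω`. -/
def Solvable (Ω : Set ℂ) (lam : ℝ) : Prop :=
  ∃ (c : ℝ) (u : ℂ → ℝ) (G : ℂ → ℂ),
    MemLp u 2 (volume.restrict Ω) ∧ MemLp G 2 (volume.restrict Ω) ∧
    (∀ φ : ℂ → ℝ, ContDiff ℝ 1 φ → HasCompactSupport φ → ∀ v : ℂ,
      ∫ x in Ω, (u x - c) * (fderiv ℝ φ x v) = - ∫ x in Ω, @inner ℝ ℂ _ (G x) v * φ x) ∧
    (∀ φ : ℂ → ℝ, ContDiff ℝ 1 φ → HasCompactSupport φ →
      ∫ x in Ω, fderiv ℝ φ x (G x) = lam * ∫ x in Ω, u x * φ x) ∧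
    ¬ (u =ᵐ[volume.restrict Ω] 0)

/-- `Ω` is an open disc -/
def IsDisc (Ω : Set ℂ) : Prop := ∃ (p : ℂ) (r0 : ℝ), 0 < r0 ∧ Ω = ball p r0

/-- The germs obtained from `φ` by analytic continuation along chains of discs in `|w| > 1`:
`Branch φ r z f` means that `f` near `z` is such a continuation of `φ`, which is given in
`|w| < r`. -/
inductive Branch (φ : ℂ → ℂ) (r : ℝ) : ℂ → (ℂ → ℂ) → Prop
  | base (z : ℂ) (h1 : 1 < ‖z‖) (h2 : ‖z‖ < r) : Branch φ r z φ
  | step (z z' c : ℂ) (ρ : ℝ) (f g : ℂ → ℂ) (h : Branch φ r z f)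
      (hB : ∀ w ∈ ball c ρ, 1 < ‖w‖) (hg : DifferentiableOn ℂ g (ball c ρ))
      (hz : z ∈ ball c ρ) (hz' : z' ∈ ball c ρ) (hfg : f =ᶠ[𝓝 z] g) : Branch φ r z' g

/-- The function `0F1 (; ν + 1; -κ) = ∑ (-κ) ^ k / (k! (ν + 1) (ν + 2) ⋯ (ν + k))`; up to the nonzero
factor `Γ (ν + 1) κ ^ (-ν / 2)` it is the Bessel function `J_ν (2 √κ)`. -/
noncomputable def BesselF (ν : ℝ) (κ : ℂ) : ℂ :=
  ∑' k : ℕ, (-κ) ^ k / ((k.factorial : ℂ) * ∏ j ∈ Finset.range k, ((ν : ℂ) + j + 1))

/-- A branch of the Schwarz function has a cusp at infinity, with a coincidence of zeros of Bessel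
functions, over a point `z0` of `Ω` the reflected preimage of which lies in `B`: `z0 = φ (1 / conj w)`
for a `w` in `B`, and for `z = z0 + t ^ q`, `z = φ u`, `|u| < 1`, the function `E t / t ^ q` is
locally the composition `z ↦ conj (g (1 / conj u))` of a branch `g` of `φ` at `1 / conj u` with
`u = φ⁻¹ z` and the reflections; here `2 ≤ q ≤ d`, the parametrization is injective, `E 0 ≠ 0`,
`E t - E (exp (2πi/q) t) = t ^ n * D t`, `D 0 ≠ 0`, `q` does not divide `n`, `n > 2 q`, and the
number `κ = lam * E 0 / 4` is a common zero of `κ ↦ J_1 (2 √κ) / √κ` and of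
`κ ↦ κ ^ (n / 2q) J_{-n / q} (2 √κ)`. -/
def BesselCusp (φ : ℂ → ℂ) (r lam : ℝ) (d : ℕ) (B : Set ℂ) : Prop :=
  ∃ (z0 : ℂ) (q n : ℕ) (δ : ℝ) (E D : ℂ → ℂ), (∃ w ∈ B, z0 = φ (1 / conj w)) ∧ 2 ≤ q ∧ q ≤ d ∧
    ¬ q ∣ n ∧ 2 * q < n ∧ 0 < δ ∧
    DifferentiableOn ℂ E (ball 0 δ) ∧ DifferentiableOn ℂ D (ball 0 δ) ∧ E 0 ≠ 0 ∧ D 0 ≠ 0 ∧
    (∀ t ∈ ball (0 : ℂ) δ, z0 + t ^ q ∈ φ '' ball 0 1) ∧
    (∀ t ∈ ball (0 : ℂ) δ, t ≠ 0 → ∃ (u : ℂ) (g : ℂ → ℂ), u ∈ ball (0 : ℂ) 1 ∧ u ≠ 0 ∧
      φ u = z0 + t ^ q ∧ Branch φ r (1 / conj u) g ∧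
      ∀ᶠ s in 𝓝 t, ∀ v ∈ ball (0 : ℂ) 1, φ v = z0 + s ^ q →
        E s / s ^ q = conj (g (1 / conj v))) ∧
    (∀ t ∈ ball (0 : ℂ) δ, ∀ t' ∈ ball (0 : ℂ) δ, t ≠ 0 → t' ≠ 0 →
      t ^ q = t' ^ q → E t / t ^ q = E t' / t' ^ q → t = t') ∧
    (∀ t ∈ ball (0 : ℂ) δ, E t - E (Complex.exp (2 * Real.pi * Complex.I / q) * t) =
      t ^ n * D t) ∧
    BesselF 1 (lam / 4 * E 0) = 0 ∧ BesselF (-(n / q)) (lam / 4 * E 0) = 0

/-- the Schwarzian derivative -/
noncomputable def schwarzian (f : ℂ → ℂ) (w : ℂ) : ℂ :=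
  deriv (deriv (deriv f)) w / deriv f w - 3 / 2 * (deriv (deriv f) w / deriv f w) ^ 2

/-- The kinds of differential expressions: a derivative of order `n`, `f'' / f'`, the Schwarzian
derivative, `f' - h f`, and `f'' - h f'`, where `h` is a given function. -/
inductive Kind
  | der (n : ℕ)
  | pre
  | sch
  | lin (h : ℂ → ℂ)
  | lin' (h : ℂ → ℂ)

/-- the value of the expression -/
noncomputable def Kind.val : Kind → (ℂ → ℂ) → ℂ → ℂ
  | .der n => fun f w => iteratedDeriv n f w
  | .pre => fun f w => deriv (deriv f) w / deriv f w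
  | .sch => fun f w => schwarzian f w
  | .lin h => fun f w => deriv f w - h w * f w
  | .lin' h => fun f w => deriv (deriv f) w - h w * deriv f w

/-- the function `h` of the last two kinds is holomorphic in `W` -/
def Kind.Hol : Kind → Set ℂ → Prop
  | .der _ => fun _ => True
  | .pre => fun _ => True
  | .sch => fun _ => True
  | .lin h => fun W => DifferentiableOn ℂ h W
  | .lin' h => fun W => DifferentiableOn ℂ h W

/-- the first three kinds -/
def Kind.First : Kind → Prop
  | .der _ => True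
  | .pre => True
  | .sch => True
  | .lin _ => False
  | .lin' _ => False

/-- The coefficients of an algebroid relation of degree `d` in the open set `B` minus the countable
relatively closed set `B \ U`: `c 0, ..., c d` are holomorphic in `B ∩ U`, and `c d` is not
identically zero. -/
def Coeffs (B U : Set ℂ) (d : ℕ) (c : ℕ → ℂ → ℂ) : Prop :=
  IsOpen U ∧ (B \ U).Countable ∧ (∀ k ≤ d, DifferentiableOn ℂ (c k) (B ∩ U)) ∧
    ∃ w ∈ B ∩ U, c d w ≠ 0

/-- There is a cusp over the reflection of `B`, with `q ≤ d` for the first three kinds. -/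
def CuspFor (φ : ℂ → ℂ) (r lam : ℝ) (X : Kind) (d : ℕ) (B : Set ℂ) : Prop :=
  ∃ m : ℕ, (X.First → m ≤ d) ∧ BesselCusp φ r lam m B

/-- The local statement: let the open disc `B = {|w - x| < ρ}` lie in `|w| > 1`, let `c` be the
coefficients of an algebroid relation in `B ∩ U`, and let `g` be a branch of `φ` at a point `z` of
`B` such that the expression of the kind `X` satisfies the relation at all points of `U` near `z`
where `g' ≠ 0`. Then `g` extends holomorphically to `B`, or there is a cusp over the reflection of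
`B`. -/
def ExtendOrCusp (φ : ℂ → ℂ) (r lam : ℝ) (d : ℕ) : Prop :=
  ∀ (x : ℂ) (ρ : ℝ) (U : Set ℂ) (c : ℕ → ℂ → ℂ) (X : Kind) (z : ℂ) (g : ℂ → ℂ),
    (∀ w ∈ ball x ρ, 1 < ‖w‖) → Coeffs (ball x ρ) U d c → X.Hol (ball x ρ ∩ U) → z ∈ ball x ρ →
    Branch φ r z g →
    (∀ᶠ w in 𝓝 z, w ∈ U → deriv g w ≠ 0 →
      ∑ k ∈ Finset.range (d + 1), c k w * X.val g w ^ k = 0) →
    (∃ E : ℂ → ℂ, DifferentiableOn ℂ E (ball x ρ) ∧ E =ᶠ[𝓝 z] g) ∨
      CuspFor φ r lam X d (ball x ρ)

/-- A branch `g` of `φ` at the point `x + exp τ0` which can be continued along all paths in the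
punctured disc `0 < |w - x| < ρ`, given in the coordinate `τ`, `w = x + exp τ`, by the function `G`,
holomorphic for `|exp τ| < ρ`; the disc lies in `|w| > 1`. After `j` turns the branch is
`G (τ + 2 π i j)`. -/
def Continued (φ : ℂ → ℂ) (r : ℝ) (x : ℂ) (ρ : ℝ) (τ0 : ℂ) (g G : ℂ → ℂ) : Prop :=
  (∀ w ∈ ball x ρ, 1 < ‖w‖) ∧ DifferentiableOn ℂ G {τ | ‖Complex.exp τ‖ < ρ} ∧
    ‖Complex.exp τ0‖ < ρ ∧ Branch φ r (x + Complex.exp τ0) g ∧
    ∀ᶠ τ in 𝓝 τ0, G τ = g (x + Complex.exp τ)

/-- The theorem on the local monodromy: if, for the branch after `N` turns, `G (τ + 2 π i N)` is a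
Moebius transformation of `G τ`, or the difference `V τ = G (τ + 2 π i N) - G τ` satisfies
`V (τ + 2 π i N) = κ * V τ + c` with constants `κ ≠ 0`, `c`, then `g` extends holomorphically to the
disc, or there is a cusp over its reflection, with `q ≤ N` in the first case and if `κ = 1`. -/
def MonodromyExtendOrCusp (φ : ℂ → ℂ) (r lam : ℝ) : Prop :=
  ∀ (x : ℂ) (ρ : ℝ) (τ0 : ℂ) (g G : ℂ → ℂ) (N : ℕ), Continued φ r x ρ τ0 g G → 0 < N →
    (∀ a b c d : ℂ, a * d - b * c ≠ 0 →
      (∀ τ : ℂ, ‖Complex.exp τ‖ < ρ →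
        G (τ + N * (2 * Real.pi * Complex.I)) * (c * G τ + d) = a * G τ + b) →
      (∃ E : ℂ → ℂ, DifferentiableOn ℂ E (ball x ρ) ∧ E =ᶠ[𝓝 (x + Complex.exp τ0)] g) ∨
        BesselCusp φ r lam N (ball x ρ)) ∧
    (∀ κ c : ℂ, κ ≠ 0 →
      (∀ τ : ℂ, ‖Complex.exp τ‖ < ρ →
        G (τ + N * (2 * Real.pi * Complex.I) + N * (2 * Real.pi * Complex.I)) -
          G (τ + N * (2 * Real.pi * Complex.I)) =
        κ * (G (τ + N * (2 * Real.pi * Complex.I)) - G τ) + c) →
      (∃ E : ℂ → ℂ, DifferentiableOn ℂ E (ball x ρ) ∧ E =ᶠ[𝓝 (x + Complex.exp τ0)] g) ∨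
        ∃ m : ℕ, (κ = 1 → m ≤ N) ∧ BesselCusp φ r lam m (ball x ρ))

/-- The germ `u` at the point `z` of the open set `B` is algebroid in `B`: near `z` it satisfies a
relation `∑ c k w * u w ^ k = 0`, `k ≤ d`, with coefficients as in `Coeffs`. -/
def Algebroid (B : Set ℂ) (z : ℂ) (u : ℂ → ℂ) : Prop :=
  AnalyticAt ℂ u z ∧ ∃ (U : Set ℂ) (d : ℕ) (c : ℕ → ℂ → ℂ), Coeffs B U d c ∧
    ∀ᶠ w in 𝓝 z, w ∈ U → ∑ k ∈ Finset.range (d + 1), c k w * u w ^ k = 0

/-- The germ `f` at `z` is an algebroid combination `f = h 0 + h 1 * y 0 + ... + h m * y (m - 1)` of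
solutions of first order linear equations `y i' = a * y i + g i` with the same `a`; here `a`, the
`h i` and the `g i` are algebroid in `B`. (For `a = 0` the `y i` are abelian integrals. In
particular a solution of `f' = a f + g` is such a combination.) -/
def LinearCombination (B : Set ℂ) (z : ℂ) (f : ℂ → ℂ) : Prop :=
  ∃ (m : ℕ) (a : ℂ → ℂ) (h : Fin (m + 1) → ℂ → ℂ) (y g : Fin m → ℂ → ℂ), Algebroid B z a ∧
    (∀ i, Algebroid B z (h i)) ∧ (∀ i, Algebroid B z (g i)) ∧
    (∀ i, AnalyticAt ℂ (y i) z ∧ ∀ᶠ w in 𝓝 z, deriv (y i) w = a w * y i w + g i w) ∧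
    ∀ᶠ w in 𝓝 z, f w = h 0 w + ∑ i : Fin m, h i.succ w * y i w

/-- The local statement for these germs: if the open disc `B = {|w - x| < ρ}` lies in `|w| > 1`, and
a branch `g` of `φ` at a point of `B`, or its derivative, is such a combination, then `g` extends
holomorphically to `B`, or there is a cusp over the reflection of `B`. -/
def CombinationExtendOrCusp (φ : ℂ → ℂ) (r lam : ℝ) : Prop :=
  ∀ (x : ℂ) (ρ : ℝ) (z : ℂ) (g : ℂ → ℂ), (∀ w ∈ ball x ρ, 1 < ‖w‖) → z ∈ ball x ρ →
    Branch φ r z g → LinearCombination (ball x ρ) z g ∨ LinearCombination (ball x ρ) z (deriv g) →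
    (∃ E : ℂ → ℂ, DifferentiableOn ℂ E (ball x ρ) ∧ E =ᶠ[𝓝 z] g) ∨
      ∃ m : ℕ, BesselCusp φ r lam m (ball x ρ)

/-- A class `R` of germs of holomorphic functions at the points of the open set `B` minus the
countable relatively closed set `B \ U`, such that
- `R w f` only depends on the germ of `f` at `w`;
- `R` is closed under analytic continuation in `B ∩ U`: every point of `B ∩ U` has a small disc, to
  which every germ of the class at a point of the disc extends, and the extension belongs to the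
  class at all points of the disc;
- for every function `G` of the coordinate `τ`, `w = x + exp τ`, which is obtained by continuation of
  germs of the class along a circle `|w - x| = exp t0` in `B ∩ U`, there is an `N > 0` such that
  `G (τ + 2 π i N)` is a Moebius transformation of `G τ`, or the difference
  `V τ = G (τ + 2 π i N) - G τ` satisfies `V (τ + 2 π i N) = κ * V τ + c` with constants `κ ≠ 0`,
  `c`. -/
structure MonodromyClass (B U : Set ℂ) (R : ℂ → (ℂ → ℂ) → Prop) : Prop where
  isOpen : IsOpen U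
  countable : (B \ U).Countable
  congr : ∀ (w : ℂ) (f g : ℂ → ℂ), w ∈ B ∩ U → R w f → f =ᶠ[𝓝 w] g → R w g
  extend : ∀ y ∈ B ∩ U, ∃ δ : ℝ, 0 < δ ∧ ball y δ ⊆ B ∩ U ∧ ∀ w ∈ ball y δ, ∀ f : ℂ → ℂ, R w f →
    ∃ E : ℂ → ℂ, DifferentiableOn ℂ E (ball y δ) ∧ E =ᶠ[𝓝 w] f ∧ ∀ w' ∈ ball y δ, R w' E
  circle : ∀ (x : ℂ) (t0 ε : ℝ) (G : ℂ → ℂ), 0 < ε →
    (∀ τ : ℂ, |τ.re - t0| < ε → x + Complex.exp τ ∈ B ∩ U) →
    DifferentiableOn ℂ G {τ | |τ.re - t0| < ε} →
    (∀ τ : ℂ, |τ.re - t0| < ε → ∃ f : ℂ → ℂ, R (x + Complex.exp τ) f ∧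
      G =ᶠ[𝓝 τ] fun t => f (x + Complex.exp t)) →
    ∃ N : ℕ, 0 < N ∧ ((∃ a b c d : ℂ, a * d - b * c ≠ 0 ∧ ∀ τ : ℂ, |τ.re - t0| < ε →
      G (τ + N * (2 * Real.pi * Complex.I)) * (c * G τ + d) = a * G τ + b) ∨
      ∃ κ c : ℂ, κ ≠ 0 ∧ ∀ τ : ℂ, |τ.re - t0| < ε →
        G (τ + N * (2 * Real.pi * Complex.I) + N * (2 * Real.pi * Complex.I)) -
          G (τ + N * (2 * Real.pi * Complex.I)) =
        κ * (G (τ + N * (2 * Real.pi * Complex.I)) - G τ) + c)

/-- The germ `f` at `z` belongs to the class (at the points of `U` near `z`). -/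
def InClass (U : Set ℂ) (R : ℂ → (ℂ → ℂ) → Prop) (z : ℂ) (f : ℂ → ℂ) : Prop :=
  ∀ᶠ w in 𝓝 z, w ∈ U → R w f

/-- The theorem on the monodromy, local form: if the open disc `B = {|w - x| < ρ}` lies in
`|w| > 1`, and a branch `g` of `φ` at a point of `B` belongs to a class with Moebius or linear
monodromy, off a countable relatively closed set of `B`, then `g` extends holomorphically to `B`, or
there is a cusp over the reflection of `B`. -/
def ClassExtendOrCusp (φ : ℂ → ℂ) (r lam : ℝ) : Prop :=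
  ∀ (x : ℂ) (ρ : ℝ) (U : Set ℂ) (R : ℂ → (ℂ → ℂ) → Prop) (z : ℂ) (g : ℂ → ℂ),
    (∀ w ∈ ball x ρ, 1 < ‖w‖) → MonodromyClass (ball x ρ) U R → z ∈ ball x ρ →
    Branch φ r z g → InClass U R z g →
    (∃ E : ℂ → ℂ, DifferentiableOn ℂ E (ball x ρ) ∧ E =ᶠ[𝓝 z] g) ∨
      ∃ m : ℕ, BesselCusp φ r lam m (ball x ρ)

theorem MonodromyClass.rm {B U : Set ℂ} {R : ℂ → (ℂ → ℂ) → Prop} (h : MonodromyClass B U R) :
    Pool.Agent.Helper6.SH.Gen.RM B U R :=
  ⟨h.isOpen, h.countable, h.congr, h.extend, h.circle⟩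

theorem branch_to {φ : ℂ → ℂ} {r : ℝ} {z : ℂ} {f : ℂ → ℂ} (h : Branch φ r z f) :
    BranchSingularities.Branch φ r z f := by
  induction h with
  | base z h1 h2 => exact BranchSingularities.Branch.base z h1 h2
  | step z z' c ρ f g _ hB hg hz hz' hfg ih =>
    exact BranchSingularities.Branch.step z z' c ρ f g ih hB hg hz hz' hfg

theorem branch_from {φ : ℂ → ℂ} {r : ℝ} {z : ℂ} {f : ℂ → ℂ}
    (h : BranchSingularities.Branch φ r z f) : Branch φ r z f := by
  induction h with
  | base z h1 h2 => exact Branch.base z h1 h2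
  | step z z' c ρ f g _ hB hg hz hz' hfg ih =>
    exact Branch.step z z' c ρ f g ih hB hg hz hz' hfg

/-- branches are not constant -/
theorem branch_nc {φ : ℂ → ℂ} {r : ℝ} (hD : Pool.Agent.E8helper32.SL.D0 φ r) {z : ℂ} {f : ℂ → ℂ}
    (h : Branch φ r z f) : (∀ᶠ w in 𝓝 z, DifferentiableAt ℂ f w) ∧
      ∃ᶠ w in 𝓝 z, deriv f w ≠ 0 := by
  induction h with
  | base z h1 h2 =>
    have hz : z ∈ ball (0 : ℂ) r := mem_ball_zero_iff.2 h2
    refine ⟨?_, Eventually.frequently ?_⟩
    · filter_upwards [isOpen_ball.mem_nhds hz] with w hw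
      exact hD.hφ.differentiableAt (isOpen_ball.mem_nhds hw)
    · filter_upwards [isOpen_ball.mem_nhds hz] with w hw
      exact Pool.Agent.E8helper32.SL.dne hD hw
  | step z z' c ρ f g _ hB hg hz hz' hfg ih =>
    refine ⟨?_, ?_⟩
    · filter_upwards [isOpen_ball.mem_nhds hz'] with w hw
      exact hg.differentiableAt (isOpen_ball.mem_nhds hw)
    · by_contra hcon
      rw [not_frequently] at hcon
      have h2 : deriv g =ᶠ[𝓝 z'] fun _ => (0 : ℂ) := hcon.mono fun w hw => not_not.1 hw
      have h3 := Pool.Agent.E8helper32.SA.eqOn_convex (convex_ball c ρ) isOpen_ball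
        (hg.deriv isOpen_ball) (differentiableOn_const (0 : ℂ)) hz' h2
      obtain ⟨w, hw1, hw2, hw3⟩ := (ih.2.and_eventually
        ((eventually_eventually_nhds.2 hfg).and (isOpen_ball.mem_nhds hz))).exists
      apply hw1
      have h4 : f =ᶠ[𝓝 w] g := hw2
      rw [h4.deriv_eq]
      exact h3 hw3

theorem cusp_from {φ : ℂ → ℂ} {r lam : ℝ} {d : ℕ} {B : Set ℂ}
    (h : Pool.Agent.Helper6.SF.BCusp φ r lam d B) : BesselCusp φ r lam d B := by
  obtain ⟨z0, q, n, δ, E, D, h1, h2, h3, h4, h5, h6, h7, h8, h9, h10, h11, h12, h13⟩ := h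
  refine ⟨z0, q, n, δ, E, D, h1, h2, h3, h4, h5, h6, h7, h8, h9, h10, h11, ?_, h13⟩
  intro t ht ht0
  obtain ⟨u, g, a1, a2, a3, a4, a5⟩ := h12 t ht ht0
  exact ⟨u, g, a1, a2, a3, branch_from a4, a5⟩

/-- the kinds as in `SF` or in `SG` -/
theorem kind_cases (X : Kind) : (∃ i : Fin 4, X.First ∧ ∀ (f : ℂ → ℂ) (w : ℂ), X.val f w =
      ![f w, deriv f w, deriv (deriv f) w / deriv f w, deriv (deriv (deriv f)) w / deriv f w -
        3 / 2 * (deriv (deriv f) w / deriv f w) ^ 2] i) ∨
    ∃ (i : Fin 3) (n : ℕ) (h : ℂ → ℂ), (i = 0 ↔ X.First) ∧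
      (∀ W : Set ℂ, X.Hol W → i ≠ 0 → DifferentiableOn ℂ h W) ∧
      ∀ (f : ℂ → ℂ) (w : ℂ), X.val f w = Pool.Agent.Helper6.SG.Xo i n h f w := by
  cases X with
  | der n => exact Or.inr ⟨0, n, fun _ => 0, by simp [Kind.First], fun _ _ h => absurd rfl h,
      fun f w => rfl⟩
  | pre => exact Or.inl ⟨2, trivial, fun f w => rfl⟩
  | sch => exact Or.inl ⟨3, trivial, fun f w => rfl⟩
  | lin h => exact Or.inr ⟨1, 0, h, by simp [Kind.First], fun _ h1 _ => h1, fun f w => rfl⟩
  | lin' h => exact Or.inr ⟨2, 0, h, by simp [Kind.First], fun _ h1 _ => h1, fun f w => rfl⟩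

/-- Let `φ` be holomorphic and injective in `|w| < r`, where `r > 1`, and let (S) have a nontrivial
solution on `Ω = φ(D)` for some `lam > 0`. If one of the expressions `φ^(n)`, `φ'' / φ'`,
`schwarzian φ`, `φ' - h φ`, `φ'' - h φ'` satisfies for `1 < |w| < r` an algebroid relation of degree
`d`, the coefficients of which, and `h`, are holomorphic in `|w| > 1` off a countable relatively
closed set, then `Ω` is a disc or a branch of the Schwarz function has over `Ω` a cusp at infinity
with `n > 2 q` and a coincidence of zeros of `J_1` and `J_{-n / q}`, where `q ≤ d` for the first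
three expressions. The same holds, without a bound for `q`, if near some `z0`, `1 < |z0| < r`, `φ` or `φ'`
is an algebroid combination of solutions of equations `y' = a y + g`, with one algebroid `a` and
algebroid `g`. If `Ω` is not a disc, then every branch of `φ` for which one of the expressions is
algebroid of degree `d` in a disc in `|w| > 1` minus a countable relatively closed set, and every
branch `g` such that `g` or `g'` is such a combination in a disc, extends to this disc, or there is such a cusp over the reflection of the disc; and the same is true for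
every branch which can be continued in the disc punctured at the centre, such that its local
monodromy has a power `G ↦ G_N` that is a Moebius transformation of `G` or satisfies
`G_2N - G_N = κ (G_N - G) + c`. The last result also holds, locally and globally, for branches in a
class of germs which is closed under continuation off a countable relatively closed set and has such
a monodromy along the circles. -/
theorem result (φ : ℂ → ℂ) (r : ℝ) (hr : 1 < r) (hφ : DifferentiableOn ℂ φ (ball 0 r))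
    (hinj : InjOn φ (ball 0 r)) (lam : ℝ) (hlam : 0 < lam) (hS : Solvable (φ '' ball 0 1) lam)
    (d : ℕ) :
    (∀ (U : Set ℂ) (c : ℕ → ℂ → ℂ) (X : Kind), Coeffs {w | 1 < ‖w‖} U d c →
      X.Hol ({w | 1 < ‖w‖} ∩ U) →
      (∀ w ∈ U, 1 < ‖w‖ → ‖w‖ < r → ∑ k ∈ Finset.range (d + 1), c k w * X.val φ w ^ k = 0) →
      IsDisc (φ '' ball 0 1) ∨ CuspFor φ r lam X d {w | 1 < ‖w‖}) ∧
    (∀ z0 : ℂ, 1 < ‖z0‖ → ‖z0‖ < r →
      LinearCombination {w | 1 < ‖w‖} z0 φ ∨ LinearCombination {w | 1 < ‖w‖} z0 (deriv φ) →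
      IsDisc (φ '' ball 0 1) ∨ ∃ m : ℕ, BesselCusp φ r lam m {w | 1 < ‖w‖}) ∧
    (∀ (z0 : ℂ) (U : Set ℂ) (R : ℂ → (ℂ → ℂ) → Prop), 1 < ‖z0‖ → ‖z0‖ < r →
      MonodromyClass {w | 1 < ‖w‖} U R → InClass U R z0 φ →
      IsDisc (φ '' ball 0 1) ∨ ∃ m : ℕ, BesselCusp φ r lam m {w | 1 < ‖w‖}) ∧
    (¬ IsDisc (φ '' ball 0 1) → ExtendOrCusp φ r lam d ∧ MonodromyExtendOrCusp φ r lam ∧
      CombinationExtendOrCusp φ r lam ∧ ClassExtendOrCusp φ r lam) := by
  have hD : Pool.Agent.E8helper32.SL.D0 φ r := ⟨hr, hφ, hinj⟩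
  obtain ⟨hBU, -, h3⟩ := BranchSingularities.result φ r hr hφ hinj lam hlam hS
  have hVG := Pool.Agent.E8helper32.SL.all_VG0 hD hlam hS
  have hLIM := Pool.Agent.E8helper63.SQ.t_LIM
  have hFAN := Pool.Agent.E8helper36.SQ.fan hLIM
  refine ⟨?_, ?_, ?_, fun hnd => ⟨?_, ?_, ?_, ?_⟩⟩
  · rintro U c X ⟨hU, hA, hc, ⟨w0, ⟨hw1, hw2⟩, hw3⟩⟩ hX hrel
    by_contra hcon
    rw [not_or] at hcon
    obtain ⟨hnd, hNC⟩ := hcon
    obtain ⟨hNF, -, -⟩ := h3 hnd
    have hSD : Pool.Agent.Helper6.SG.SData φ r lam := ⟨hD, hlam, hBU, hNF, hVG⟩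
    rcases kind_cases X with ⟨i, hX1, hval⟩ | ⟨i, n, h, hi, hh, hval⟩
    · obtain ⟨Φ, hΦ, hΦφ⟩ := Pool.Agent.Helper6.SF.glob_four Pool.Agent.E8helper36.SQ.iso
        Pool.Agent.E8helper36.SQ.conn Pool.Agent.E8helper36.SQ.cnt Pool.Agent.E8helper38.SQ.mob
        Pool.Agent.E8helper38.SQ.ode hLIM hFAN Pool.Agent.E8helper63.SQ.t_STRIP
        Pool.Agent.E8helper36.SQ.ell hD hlam hBU hNF hVG
        (fun h => hNC ⟨d, fun _ => le_rfl, cusp_from h⟩) hU hA hc ⟨w0, hw1, hw2, hw3⟩ i
        fun w h4 h5 h6 => by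
          have h7 := hrel w h6 h4 h5
          rw [hval] at h7
          exact h7
      exact Pool.Agent.E8helper32.SL.not_entire hD hlam hS hnd hΦ hΦφ
    · set z0 : ℂ := (((1 + r) / 2 : ℝ) : ℂ) with hz0
      have hn : ‖z0‖ = (1 + r) / 2 := by
        rw [hz0, Complex.norm_real, Real.norm_of_nonneg (by linarith)]
      have h1 : 1 < ‖z0‖ := by rw [hn]; linarith
      have h2 : ‖z0‖ < r := by rw [hn]; linarith
      have hex : IsOpen {w : ℂ | 1 < ‖w‖} := isOpen_lt continuous_const continuous_norm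
      have hzb : z0 ∈ ball (0 : ℂ) r := mem_ball_zero_iff.2 h2
      have hRX : Pool.Agent.Helper6.SG.RX i n h U d c z0 φ :=
        Pool.Agent.Helper6.SG.rx_of hex hU hc (hh _ hX) h1 (by
          filter_upwards [isOpen_ball.mem_nhds hzb] with w hw
          exact hφ.differentiableAt (isOpen_ball.mem_nhds hw)) (Eventually.frequently (by
          filter_upwards [isOpen_ball.mem_nhds hzb] with w hw
          exact Pool.Agent.E8helper32.SL.dne hD hw)) (by
          filter_upwards [isOpen_ball.mem_nhds hzb, hex.mem_nhds h1] with w hw hw4 hw5 _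
          have h7 := hrel w hw5 hw4 (mem_ball_zero_iff.1 hw)
          rw [hval] at h7
          exact h7)
      obtain ⟨Φ, hΦ, hΦφ⟩ := Pool.Agent.Helper6.SG.glb_x φ r lam i n h U d c z0 hSD
        (fun m hm hcusp => hNC ⟨m, fun hX1 => hm (hi.2 hX1), cusp_from hcusp⟩) hU hA hc
        (hh _ hX) ⟨w0, hw1, hw2, hw3⟩ h1 h2 hRX
      exact Pool.Agent.E8helper32.SL.not_entire hD hlam hS hnd hΦ hΦφ
  · intro z0 h1 h2 hf
    by_contra hcon
    rw [not_or, not_exists] at hcon
    obtain ⟨hnd, hNC⟩ := hcon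
    obtain ⟨hNF, -, -⟩ := h3 hnd
    have hSD : Pool.Agent.Helper6.SG.SData φ r lam := ⟨hD, hlam, hBU, hNF, hVG⟩
    obtain ⟨Φ, hΦ, hΦφ⟩ := Pool.Agent.Helper6.SH.glob_u Pool.Agent.Helper6.SH.p_glbr
      Pool.Agent.Helper6.SH.p_sepa Pool.Agent.Helper6.SH.p_ruc Pool.Agent.Helper6.SH.p_lift hSD
      (fun m hm => hNC m (cusp_from hm)) h1 h2 hf
    exact Pool.Agent.E8helper32.SL.not_entire hD hlam hS hnd hΦ hΦφ
  · intro z0 U R h1 h2 hR hf
    by_contra hcon
    rw [not_or] at hcon
    obtain ⟨hnd, hNC⟩ := hcon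
    obtain ⟨hNF, -, -⟩ := h3 hnd
    have hSD : Pool.Agent.Helper6.SG.SData φ r lam := ⟨hD, hlam, hBU, hNF, hVG⟩
    obtain ⟨Φ, hΦ, hΦφ⟩ := Pool.Agent.Helper6.SH.Gen.globm hSD
      (fun m hm => hNC ⟨m, cusp_from hm⟩) hR.rm h1 h2 hf
    exact Pool.Agent.E8helper32.SL.not_entire hD hlam hS hnd hΦ hΦφ
  · obtain ⟨hNF, -, -⟩ := h3 hnd
    have hSD : Pool.Agent.Helper6.SG.SData φ r lam := ⟨hD, hlam, hBU, hNF, hVG⟩
    rintro x ρ U c X z g hB ⟨hU, hA, hc, hcd⟩ hX hz hg hev
    by_contra hcon
    rw [not_or] at hcon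
    obtain ⟨hne, hNC⟩ := hcon
    obtain ⟨h4, h5⟩ := branch_nc hD hg
    rcases kind_cases X with ⟨i, hX1, hval⟩ | ⟨i, n, h, hi, hh, hval⟩
    · exact hne (Pool.Agent.Helper6.SF.loc_four Pool.Agent.E8helper36.SQ.iso
        Pool.Agent.E8helper36.SQ.conn Pool.Agent.E8helper36.SQ.cnt Pool.Agent.E8helper38.SQ.mob
        Pool.Agent.E8helper38.SQ.ode hLIM hFAN Pool.Agent.E8helper63.SQ.t_STRIP
        Pool.Agent.E8helper36.SQ.ell hD hlam hBU hNF hVG
        (fun h => hNC ⟨d, fun _ => le_rfl, cusp_from h⟩) hB hU hA hc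
        hcd i hz (branch_to hg) h4 h5 (by
          filter_upwards [hev] with w h6 h7 h8
          have h9 := h6 h7 h8
          rw [hval] at h9
          exact h9))
    · have hRX : Pool.Agent.Helper6.SG.RX i n h U d c z g :=
        Pool.Agent.Helper6.SG.rx_of isOpen_ball hU hc (hh _ hX) hz h4 h5 (by
          filter_upwards [hev] with w h6 h7 h8
          have h9 := h6 h7 h8
          rw [hval] at h9
          exact h9)
      exact hne (Pool.Agent.Helper6.SG.loc_x φ r lam i n h U d c x ρ z g hSD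
        (fun m hm hcusp => hNC ⟨m, fun hX1 => hm (hi.2 hX1), cusp_from hcusp⟩) hB hU hA hc
        (hh _ hX) hcd hz (branch_to hg) hRX)
  · obtain ⟨hNF, -, -⟩ := h3 hnd
    have hSD : Pool.Agent.Helper6.SG.SData φ r lam := ⟨hD, hlam, hBU, hNF, hVG⟩
    rintro x ρ τ0 g G N ⟨hB, hG, hτ0, hg, hGg⟩ hN
    have hρ : 0 < ρ := (norm_nonneg _).trans_lt hτ0
    have hx : 1 < ‖x‖ := hB x (mem_ball_self hρ)
    have hL : Real.exp (Real.log ρ) = ρ := Real.exp_log hρ
    have hHP : ∀ τ : ℂ, ‖Complex.exp τ‖ < ρ ↔ τ ∈ Pool.Agent.E8helper32.SQ.HP (Real.log ρ) := by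
      intro τ
      rw [Complex.norm_exp, ← Real.lt_log_iff_exp_lt hρ]
      rfl
    have hHPs : {τ : ℂ | ‖Complex.exp τ‖ < ρ} = Pool.Agent.E8helper32.SQ.HP (Real.log ρ) := by
      ext τ
      exact hHP τ
    have hB' : ∀ w ∈ ball x (Real.exp (Real.log ρ)), 1 < ‖w‖ := by rwa [hL]
    rw [hHPs] at hG
    have hP0 := Pool.Agent.Helper6.SG.p0_of hD hx hB' hG ((hHP τ0).1 hτ0) (branch_to hg) hGg
    have hfin : (∃ E : ℂ → ℂ, DifferentiableOn ℂ E (ball x (Real.exp (Real.log ρ))) ∧
        ∀ τ : ℂ, τ.re < Real.log ρ → G τ = E (x + Complex.exp τ)) →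
        ∃ E : ℂ → ℂ, DifferentiableOn ℂ E (ball x ρ) ∧ E =ᶠ[𝓝 (x + Complex.exp τ0)] g := by
      rintro ⟨E, hE, hGE⟩
      rw [hL] at hE
      refine ⟨E, hE, ?_⟩
      have h1 : Tendsto (Pool.Agent.E8helper32.SL.lm x τ0) (𝓝 (x + Complex.exp τ0)) (𝓝 τ0) := by
        have h1 : DifferentiableAt ℂ (Pool.Agent.E8helper32.SL.lm x τ0) (x + Complex.exp τ0) :=
          Pool.Agent.E8helper32.SL.lm_diff (κ := 1) le_rfl
            (mem_ball_self (by rw [one_mul]; exact norm_pos_iff.2 (Complex.exp_ne_zero _)))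
        have h2 := h1.continuousAt.tendsto
        rwa [Pool.Agent.E8helper32.SL.lm_self] at h2
      have h2 : ball (x + Complex.exp τ0) (1 * ‖Complex.exp τ0‖) ∈ 𝓝 (x + Complex.exp τ0) :=
        isOpen_ball.mem_nhds (mem_ball_self (by
          rw [one_mul]; exact norm_pos_iff.2 (Complex.exp_ne_zero _)))
      filter_upwards [h1.eventually hGg, h1.eventually
        ((Pool.Agent.E8helper32.SQ.HP_open _).mem_nhds ((hHP τ0).1 hτ0)), h2] with w h4 h5 h6
      rw [hGE _ h5, Pool.Agent.E8helper32.SL.lm_exp le_rfl h6, add_sub_cancel] at h4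
      exact h4
    have hperN : (N : ℂ) * (2 * Real.pi * Complex.I) = Pool.Agent.E8helper32.SA.per N := rfl
    constructor
    · intro a b c d hdet hM
      rcases Pool.Agent.Helper6.SF.loc_q hLIM hFAN Pool.Agent.E8helper63.SQ.t_STRIP
        Pool.Agent.E8helper36.SQ.ell hP0 hlam hBU hNF hVG hB' (B := ball x ρ)
        (mem_ball_self hρ) hN (dd := N) le_rfl hdet (fun τ hτ => by
          rw [← hperN]
          exact hM τ ((hHP τ).2 hτ)) with h | h
      · exact Or.inl (hfin h)
      · exact Or.inr (cusp_from h)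
    · intro κ c hκ hV
      rcases Pool.Agent.Helper6.SG.lin φ r lam x (Real.log ρ) G (ball x ρ) N κ c hSD hP0 hB'
        (mem_ball_self hρ) hN hκ (fun τ hτ => by
          rw [← hperN]
          exact hV τ ((hHP τ).2 hτ)) with h | ⟨m, h1, h2⟩
      · exact Or.inl (hfin h)
      · exact Or.inr ⟨m, h1, cusp_from h2⟩
  · obtain ⟨hNF, -, -⟩ := h3 hnd
    have hSD : Pool.Agent.Helper6.SG.SData φ r lam := ⟨hD, hlam, hBU, hNF, hVG⟩
    intro x ρ z g hB hz hg hf
    by_contra hcon
    rw [not_or] at hcon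
    obtain ⟨hne, hNC⟩ := hcon
    exact hne (Pool.Agent.Helper6.SH.loc_u Pool.Agent.Helper6.SH.p_locr
      Pool.Agent.Helper6.SH.p_sepa Pool.Agent.Helper6.SH.p_ruc Pool.Agent.Helper6.SH.p_lift hSD
      (fun m hm => hNC ⟨m, cusp_from hm⟩) hB hz (branch_to hg)
      (Complex.analyticAt_iff_eventually_differentiableAt.2 (branch_nc hD hg).1) hf)
  · obtain ⟨hNF, -, -⟩ := h3 hnd
    have hSD : Pool.Agent.Helper6.SG.SData φ r lam := ⟨hD, hlam, hBU, hNF, hVG⟩
    intro x ρ U R z g hB hR hz hg hf
    by_contra hcon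
    rw [not_or] at hcon
    obtain ⟨hne, hNC⟩ := hcon
    exact hne (Pool.Agent.Helper6.SH.Gen.locm hSD
      (fun m hm => hNC ⟨m, cusp_from hm⟩) hB hR.rm hz (branch_to hg) hf)

end Pool.Agent.Results.MP_83fd13_an.AlgebroidSchwarzian
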