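import Pool.Agent.Helper28.SC.Cvx2

/-!
# An explicit bound for the number of Schiffer frequencies of a strictly convex domain

Let `Ω = φ(D)`, where `φ` is holomorphic and injective in a disc `|w| < r`, `r > 1`, and `D` is the
open unit disc (by a theorem of Williams every domain on which problem (S) has a solution is of this
kind), let the curvature `κ` of the boundary be positive, and suppose that `Ω` is not a disc. By a
theorem of Berenstein (S) is solvable on `Ω` for finitely many `lam > 0` only. Here is an explicit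
bound for their number `N`: let `τ` be the unit tangent, `n` the outer unit normal,
`b = (1/π) ∮ (z · n) n κ ds` the Steiner point of `Ω`, `p = (z - b) · τ` and `h = (z - b) · n` (the
support function). Then

`2 (N + 1) ∮ p² ds ≤ √(∮ p² / κ ds · ∮ (1 - κ h)² / κ ds)`, and `∮ p² ds > 0`.

For the perturbations `h = 1 + ε cos (2ks)` of the unit disc the bound tends to `N + 1 ≤ k` as
`ε → 0`.

The proof: let `s` be the tangent angle, `ρ = 1 / κ`. By the vanishing of the odd moments (see
`OddMoments`; the same proof) `∫ e^{ils} ρ ds = 0` for odd `l`, `|l| ≤ 2N + 1`, and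
`∫ e^{ils} ρ p ds = 0` for even `l`, `|l| ≤ 2N`. From `h' = p`, `p' = ρ - h` and the choice of `b`
the Fourier coefficients of `p` with odd index up to `2N + 1` vanish, too. If `P` is the partial sum
of the Fourier series of `p` of the terms with even index up to `2N`, then
`∫ ρ p² ds = ∫ ρ p (p - P) ds`, and the frequencies of `p - P` are at least `2N + 2`, so that
`(2N + 2) ‖p - P‖ ≤ ‖p'‖` in `L²(0, 2π)`.
-/

set_option autoImplicit false

open Complex MeasureTheory Metric Set ComplexConjugate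
open Pool.Agent.Results.MP_83fd13_an.BranchSingularities (Solvable)

namespace Pool.Agent.Results.MP_83fd13_an.FrequencyCountConvex

/-- the speed `ds/dt` of the boundary curve `t ↦ φ(e^{it})` of `Ω = φ(D)` -/
noncomputable def speed (φ : ℂ → ℂ) (t : ℝ) : ℝ := ‖deriv φ (exp ((t : ℂ) * I))‖

/-- the unit tangent `τ` -/
noncomputable def tangent (φ : ℂ → ℂ) (t : ℝ) : ℂ :=
  I * exp ((t : ℂ) * I) * deriv φ (exp ((t : ℂ) * I)) / (speed φ t : ℂ)

/-- the outer unit normal `n` -/
noncomputable def normal (φ : ℂ → ℂ) (t : ℝ) : ℂ := -I * tangent φ t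

/-- the curvature `κ` -/
noncomputable def curvature (φ : ℂ → ℂ) (t : ℝ) : ℝ :=
  (1 + exp ((t : ℂ) * I) * deriv (deriv φ) (exp ((t : ℂ) * I)) /
    deriv φ (exp ((t : ℂ) * I))).re / speed φ t

/-- the Steiner point `b = (1/π) ∮ (z · n) n κ ds` -/
noncomputable def steiner (φ : ℂ → ℂ) : ℂ :=
  (1 / Real.pi : ℂ) * ∫ t in (0 : ℝ)..(2 * Real.pi),
    (((conj (φ (exp ((t : ℂ) * I))) * normal φ t).re * curvature φ t * speed φ t : ℝ) : ℂ) *
      normal φ t

/-- `p = (z - b) · τ` -/
noncomputable def foot (φ : ℂ → ℂ) (t : ℝ) : ℝ :=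
  (conj (φ (exp ((t : ℂ) * I)) - steiner φ) * tangent φ t).re

/-- `h = (z - b) · n`, the support function -/
noncomputable def height (φ : ℂ → ℂ) (t : ℝ) : ℝ :=
  (conj (φ (exp ((t : ℂ) * I)) - steiner φ) * normal φ t).re

/-- Let the boundary of `Ω = φ(D)` have positive curvature, and let `Ω` not be a disc. Then the set of
all `lam > 0` for which (S) is solvable on `Ω` is finite, and for the number `N` of its elements
`2 (N + 1) ∮ p² ds ≤ √(∮ p² / κ ds · ∮ (1 - κ h)² / κ ds)`, where `∮ p² ds > 0`. -/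
theorem result (φ : ℂ → ℂ) (r : ℝ) (hr : 1 < r) (hφ : DifferentiableOn ℂ φ (ball 0 r))
    (hinj : InjOn φ (ball 0 r)) (hc : ∀ t : ℝ, 0 < curvature φ t)
    (hnd : ¬ ∃ (c : ℂ) (R : ℝ), 0 < R ∧ φ '' ball 0 1 = ball c R) :
    0 < ∫ t in (0 : ℝ)..(2 * Real.pi), foot φ t ^ 2 * speed φ t ∧
    {lam : ℝ | 0 < lam ∧ Solvable (φ '' ball 0 1) lam}.Finite ∧
    2 * ({lam : ℝ | 0 < lam ∧ Solvable (φ '' ball 0 1) lam}.ncard + 1 : ℝ) *
      ∫ t in (0 : ℝ)..(2 * Real.pi), foot φ t ^ 2 * speed φ t ≤
      √((∫ t in (0 : ℝ)..(2 * Real.pi), foot φ t ^ 2 / curvature φ t * speed φ t) *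
        ∫ t in (0 : ℝ)..(2 * Real.pi),
          (1 - curvature φ t * height φ t) ^ 2 / curvature φ t * speed φ t) := by
  have hnorm : ∀ t : ℝ, ‖Pool.Agent.E8helper4.FV.xd φ t‖ = speed φ t := by
    intro t
    unfold Pool.Agent.E8helper4.FV.xd
    rw [norm_mul, norm_mul, norm_I, Complex.norm_exp_ofReal_mul_I, one_mul, one_mul]
    rfl
  have hsp : ∀ t : ℝ, 0 < speed φ t := by
    intro t
    rw [← hnorm]
    exact norm_pos_iff.2 (Pool.Agent.Helper28.SC.xd_ne hr hφ hinj t)
  have hom : ∀ t, 0 < Pool.Agent.E8helper4.FV.om φ t := by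
    intro t
    have h1 := hc t
    unfold curvature at h1
    exact (div_pos_iff_of_pos_right (hsp t)).1 h1
  have hcu : ∀ t, curvature φ t = Pool.Agent.E8helper4.FV.om φ t / speed φ t := fun t => rfl
  obtain ⟨th, T, hA⟩ := Pool.Agent.E8helper85.FV.t_C2 φ r hr hφ hinj hom
  have hC := Pool.Agent.E8helper52.FV.crv hr hφ hinj hom hA
  obtain ⟨ρ, hρ⟩ : ∃ ρ, ρ = Pool.Agent.E8helper4.FV.rr φ T := ⟨_, rfl⟩
  obtain ⟨z, hz⟩ : ∃ z, z = Pool.Agent.E8helper4.FV.zz φ T := ⟨_, rfl⟩
  rw [← hρ, ← hz] at hC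
  have hta : ∀ t, Pool.Agent.Helper28.SC.ta φ t = tangent φ t := by
    intro t
    unfold Pool.Agent.Helper28.SC.ta
    rw [hnorm]; rfl
  have hrho : ∀ t, ρ (th t) = speed φ t / Pool.Agent.E8helper4.FV.om φ t := by
    intro t
    rw [hρ, Pool.Agent.Helper28.SC.rr_th hr hφ hinj hA, hnorm]
  have hp : ∀ b t, Pool.Agent.Helper28.SC.pz (fun s => z s - b) (th t) =
      (conj (φ (exp ((t : ℂ) * I)) - b) * tangent φ t).re := by
    intro b t
    rw [hz, Pool.Agent.Helper28.SC.pz_th hr hφ hinj hA, hta]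
    rfl
  have hh : ∀ b t, Pool.Agent.Helper28.SC.hz (fun s => z s - b) (th t) =
      (conj (φ (exp ((t : ℂ) * I)) - b) * normal φ t).re := by
    intro b t
    rw [hz, Pool.Agent.Helper28.SC.hz_th hr hφ hinj hA, hta]
    rfl
  have hC' : ∀ b, Pool.Agent.E8helper4.FV.Crv ρ (fun s => z s - b) := fun b =>
    ⟨hC.cont, hC.pos, hC.per, fun s => by simp only [hC.perz], fun s => (hC.der s).sub_const b⟩
  have cρ := hC.cont
  have cp := Pool.Agent.Helper28.SC.pz_cont (hC' (steiner φ))
  have ch := Pool.Agent.Helper28.SC.hz_cont (hC' (steiner φ))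
  have ch0 := Pool.Agent.Helper28.SC.hz_cont hC
  have ch0' : Continuous fun s => (Pool.Agent.Helper28.SC.hz z s : ℂ) :=
    Complex.continuous_ofReal.comp ch0
  have pp := Pool.Agent.Helper28.SC.pz_per (hC' (steiner φ))
  have ph := Pool.Agent.Helper28.SC.hz_per (hC' (steiner φ))
  have ph0 := Pool.Agent.Helper28.SC.hz_per hC
  -- the Steiner point
  have hb : (Real.pi : ℂ) * steiner φ = ∫ s in (0 : ℝ)..(2 * Real.pi),
      (Pool.Agent.Helper28.SC.hz z s : ℂ) * (-I * exp ((s : ℂ) * I)) := by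
    have hpi : (Real.pi : ℂ) ≠ 0 := by exact_mod_cast Real.pi_ne_zero
    rw [← Pool.Agent.Helper28.SC.chg hr hφ hinj hA (F := fun s : ℝ =>
      (Pool.Agent.Helper28.SC.hz z s : ℂ) * (-I * exp ((s : ℂ) * I))) (by fun_prop)
      (fun s => by simp only [ph0, Pool.Agent.E8helper52.FV.e_per])]
    unfold steiner
    rw [← mul_assoc, mul_one_div_cancel hpi, one_mul]
    refine intervalIntegral.integral_congr fun t _ => ?_
    have h1 := hh 0 t
    simp only [sub_zero] at h1
    have h2 : Pool.Agent.Helper28.SC.hz z (th t) =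
        (conj (φ (exp ((t : ℂ) * I))) * normal φ t).re := h1
    rw [h2, ← Pool.Agent.Helper28.SC.ta_th hr hφ hinj hA, hta, Complex.real_smul, hcu]
    have h3 : -I * tangent φ t = normal φ t := rfl
    have h4 : (speed φ t : ℂ) ≠ 0 := by exact_mod_cast (hsp t).ne'
    rw [h3]
    push_cast
    field_simp
  -- the three integrals
  have e0 : ∫ t in (0 : ℝ)..(2 * Real.pi), foot φ t ^ 2 * speed φ t =
      ∫ s in (0 : ℝ)..(2 * Real.pi), ρ s *
        Pool.Agent.Helper28.SC.pz (fun s => z s - steiner φ) s ^ 2 := by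
    rw [← Pool.Agent.Helper28.SC.chg hr hφ hinj hA (F := fun s : ℝ => ρ s *
        Pool.Agent.Helper28.SC.pz (fun s => z s - steiner φ) s ^ 2) (by fun_prop)
        (fun s => by simp only [hC.per, pp])]
    refine intervalIntegral.integral_congr fun t _ => ?_
    have h4 := (hom t).ne'
    simp only [smul_eq_mul]
    rw [hp, hrho]
    unfold foot
    field_simp
  have e1 : ∫ t in (0 : ℝ)..(2 * Real.pi), foot φ t ^ 2 / curvature φ t * speed φ t =
      ∫ s in (0 : ℝ)..(2 * Real.pi), ρ s ^ 2 *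
        Pool.Agent.Helper28.SC.pz (fun s => z s - steiner φ) s ^ 2 := by
    rw [← Pool.Agent.Helper28.SC.chg hr hφ hinj hA (F := fun s : ℝ => ρ s ^ 2 *
        Pool.Agent.Helper28.SC.pz (fun s => z s - steiner φ) s ^ 2) (by fun_prop)
        (fun s => by simp only [hC.per, pp])]
    refine intervalIntegral.integral_congr fun t _ => ?_
    have h4 := (hom t).ne'
    have h5 := (hsp t).ne'
    simp only [smul_eq_mul]
    rw [hp, hrho, hcu]
    unfold foot
    field_simp
  have e2 : ∫ t in (0 : ℝ)..(2 * Real.pi),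
      (1 - curvature φ t * height φ t) ^ 2 / curvature φ t * speed φ t =
      ∫ s in (0 : ℝ)..(2 * Real.pi), (ρ s -
        Pool.Agent.Helper28.SC.hz (fun s => z s - steiner φ) s) ^ 2 := by
    rw [← Pool.Agent.Helper28.SC.chg hr hφ hinj hA (F := fun s : ℝ => (ρ s -
        Pool.Agent.Helper28.SC.hz (fun s => z s - steiner φ) s) ^ 2) (by fun_prop)
        (fun s => by simp only [hC.per, ph])]
    refine intervalIntegral.integral_congr fun t _ => ?_
    have h4 := (hom t).ne'
    have h5 := (hsp t).ne'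
    simp only [smul_eq_mul]
    rw [hh, hrho, hcu]
    unfold height
    field_simp
  -- the bound for finite sets of frequencies
  have bound : ∀ A : Finset ℝ, (∀ lam ∈ A, 0 < lam ∧ Solvable (φ '' ball 0 1) lam) →
      2 * (A.card + 1 : ℝ) * ∫ t in (0 : ℝ)..(2 * Real.pi), foot φ t ^ 2 * speed φ t ≤
      √((∫ t in (0 : ℝ)..(2 * Real.pi), foot φ t ^ 2 / curvature φ t * speed φ t) *
        ∫ t in (0 : ℝ)..(2 * Real.pi),
          (1 - curvature φ t * height φ t) ^ 2 / curvature φ t * speed φ t) := by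
    intro A hAS
    rw [e0, e1, e2]
    refine Real.le_sqrt_of_sq_le ?_
    refine Pool.Agent.Helper28.SC.cvx_core' hC A.card ?_ ?_ (steiner φ) hb
    · intro l hl hl2
      have h1 := Pool.Agent.Helper28.SC.TM_all hr hφ hinj A.card A le_rfl hAS l 0
        (by simpa using hl) (by simpa using hl2)
      rw [Pool.Agent.Helper28.SC.TM_ang hr hφ hinj hA hom, ← hρ, ← hz] at h1
      simpa only [pow_zero, mul_one] using h1
    · intro l hl hl2
      have h1 := Pool.Agent.Helper28.SC.TM_all hr hφ hinj A.card A le_rfl hAS l 1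
        (by push_cast; exact hl.add_odd odd_one) (by omega)
      rw [Pool.Agent.Helper28.SC.TM_ang hr hφ hinj hA hom, ← hρ, ← hz] at h1
      simpa only [pow_one] using h1
  -- positivity
  have cfoot : Continuous (foot φ) := by
    have h1 := Pool.Agent.E8helper4.FV.xx_cont hr hφ
    have h2 : Continuous (tangent φ) := by
      have := Pool.Agent.Helper28.SC.ta_cont hr hφ hinj
      have e : Pool.Agent.Helper28.SC.ta φ = tangent φ := funext hta
      rwa [e] at this
    exact Complex.continuous_re.comp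
      ((Complex.continuous_conj.comp (h1.sub continuous_const)).mul h2)
  have cspeed : Continuous (speed φ) := by
    have := (Pool.Agent.E8helper4.FV.xd_cont hr hφ).norm
    have e : (fun t => ‖Pool.Agent.E8helper4.FV.xd φ t‖) = speed φ := funext hnorm
    rwa [e] at this
  have pos : 0 < ∫ t in (0 : ℝ)..(2 * Real.pi), foot φ t ^ 2 * speed φ t := by
    have h0 : ∀ t, 0 ≤ foot φ t ^ 2 * speed φ t := fun t =>
      mul_nonneg (sq_nonneg _) (hsp t).le
    have cF : Continuous fun t => foot φ t ^ 2 * speed φ t := (cfoot.pow 2).mul cspeed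
    by_contra hcon
    have hz0 : ∀ t ∈ Icc (0 : ℝ) (2 * Real.pi), foot φ t = 0 := by
      intro t ht
      by_contra h1
      apply hcon
      exact intervalIntegral.integral_pos Real.two_pi_pos cF.continuousOn (fun s _ => h0 s)
        ⟨t, ht, mul_pos (by positivity) (hsp t)⟩
    apply hnd
    refine Pool.Agent.E8helper69.FV.disc φ r hr hφ hinj (steiner φ) ?_
    refine Pool.Agent.E8helper69.FV.GG_zero φ r hr hφ (steiner φ) 0 (2 * Real.pi)
      Real.two_pi_pos fun t ht => ?_
    have h1 := hz0 t (Ioo_subset_Icc_self ht)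
    unfold foot at h1
    have h2 : I * exp ((t : ℂ) * I) * deriv φ (exp ((t : ℂ) * I)) =
        (speed φ t : ℂ) * tangent φ t := by
      unfold tangent
      have h4 : (speed φ t : ℂ) ≠ 0 := by exact_mod_cast (hsp t).ne'
      field_simp
    have h3 : conj ((speed φ t : ℂ) * tangent φ t) * (φ (exp ((t : ℂ) * I)) - steiner φ) =
        (speed φ t : ℂ) * conj (conj (φ (exp ((t : ℂ) * I)) - steiner φ) * tangent φ t) := by
      rw [map_mul, map_mul, conj_ofReal, conj_conj]; ring
    unfold Pool.Agent.E8helper69.FV.GG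
    rw [h2, h3, re_ofReal_mul, conj_re, h1, mul_zero]
  have hfin : {lam : ℝ | 0 < lam ∧ Solvable (φ '' ball 0 1) lam}.Finite := by
    by_contra hinf
    have hinf' : {lam : ℝ | 0 < lam ∧ Solvable (φ '' ball 0 1) lam}.Infinite := hinf
    obtain ⟨n, hn⟩ := exists_nat_gt (√((∫ t in (0 : ℝ)..(2 * Real.pi),
        foot φ t ^ 2 / curvature φ t * speed φ t) * ∫ t in (0 : ℝ)..(2 * Real.pi),
          (1 - curvature φ t * height φ t) ^ 2 / curvature φ t * speed φ t) /
      ∫ t in (0 : ℝ)..(2 * Real.pi), foot φ t ^ 2 * speed φ t)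
    obtain ⟨A, hAs, hAc⟩ := hinf'.exists_subset_card_eq n
    have h1 := bound A fun lam h => hAs h
    rw [hAc] at h1
    rw [div_lt_iff₀ pos] at hn
    have h2 : (n : ℝ) * ∫ t in (0 : ℝ)..(2 * Real.pi), foot φ t ^ 2 * speed φ t ≤
        2 * (n + 1 : ℝ) * ∫ t in (0 : ℝ)..(2 * Real.pi), foot φ t ^ 2 * speed φ t := by
      refine mul_le_mul_of_nonneg_right ?_ pos.le
      have : (0 : ℝ) ≤ n := Nat.cast_nonneg n
      linarith
    linarith
  refine ⟨pos, hfin, ?_⟩
  have h1 := bound hfin.toFinset fun lam h => hfin.mem_toFinset.1 h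
  rwa [← Set.ncard_eq_toFinset_card _ hfin] at h1

end Pool.Agent.Results.MP_83fd13_an.FrequencyCountConvex
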