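import Pool.Agent.Helper28.SC.Mom

/-!
# The number of Schiffer frequencies and the odd moments of the boundary

Let `Ω = φ(D)`, where `φ` is holomorphic and injective in a disc `|w| < r`, `r > 1`, and `D` is the
open unit disc (by a theorem of Williams every domain on which problem (S) has a solution is of this
kind). Let `τ` be the unit tangent of the boundary and `p = z · τ`, so that `(τ, p)` determines the
oriented normal line at the boundary point `z`. The moments of order `2m + 1` of this closed curve of
oriented lines are `∮ τ₁^i τ₂^j p^k ds`, `i + j + k = 2m + 1`.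

Theorem: if a moment of order `2m + 1` is not zero, then (S) is solvable on `Ω` for fewer than `m`
values of `lam > 0`. For `m = 1`: Schiffer's conjecture holds, at all frequencies, for every domain
with a non-vanishing cubic moment. In other words: if (S) is solvable for `N` different `lam`, then all
odd moments up to the order `2N + 1` vanish; in the strictly convex case the Fourier coefficients of
index `3, 5, ..., 2N + 1` of the radius of curvature (as a function of the normal angle) vanish, and
those of index `2, 4, ..., 2N` of `|z|²` also vanish. This is an exact and quantitative form of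
Berenstein's theorem, that (S) is solvable for infinitely many `lam` only if `Ω` is a disc.

The proof: let `a = lam / 4`, `X = conj z` on the boundary. The jets `U n` of the solution on the
boundary (`U (-k) = ∂_z^k u`, `U k = (-a)^(-k) ∂_ζ^k u`, `u = 1` on the boundary) are sums of a
Goursat sum `∑ (-aX)^k / k! N_(n+k)` with `N_n` holomorphic in `Ω` and the conjugate of such a sum,
plus an entire solution; hence `∮ (R^j U)_n dX = 0` for all `j`, `n`, where `R` is the rotation
`(R F)_n = z F_(n-1) + a X F_(n+1) - n F_n`. On the other hand the `U n` are given by the recursion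
`U (n-1) = dU n / dz + a X' U (n+1)`, so that `(R^j U)_n` is, for `n ≤ 0`, a polynomial in `a` without
constant term, whose leading coefficient is `(2p)^j τ^(n)` when `j - n` is even; the degree is then
`(j - n) / 2`. If this polynomial, integrated against `dX`, has `(j - n) / 2` positive zeros, then its
leading coefficient vanishes.
-/

set_option autoImplicit false

open Complex MeasureTheory Metric Set ComplexConjugate
open Pool.Agent.Results.MP_83fd13_an.BranchSingularities (Solvable)

namespace Pool.Agent.Results.MP_83fd13_an.OddMoments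

/-- the unit tangent `τ` of the boundary curve `t ↦ φ(e^{it})` of `Ω = φ(D)` -/
noncomputable def tangent (φ : ℂ → ℂ) (t : ℝ) : ℂ :=
  I * exp ((t : ℂ) * I) * deriv φ (exp ((t : ℂ) * I)) / (‖deriv φ (exp ((t : ℂ) * I))‖ : ℂ)

/-- `p = z · τ` at the boundary point `z = φ(e^{it})`: the position of the normal line at `z` -/
noncomputable def foot (φ : ℂ → ℂ) (t : ℝ) : ℝ := (conj (φ (exp ((t : ℂ) * I))) * tangent φ t).re

/-- the moment `∮ τ₁^i τ₂^j p^k ds` over the boundary of `Ω = φ(D)` (`s` is the arc length) -/
noncomputable def moment (φ : ℂ → ℂ) (i j k : ℕ) : ℝ :=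
  ∫ t in (0 : ℝ)..(2 * Real.pi), (tangent φ t).re ^ i * (tangent φ t).im ^ j * foot φ t ^ k *
    ‖deriv φ (exp ((t : ℂ) * I))‖

/-- If a moment of order `2m + 1` of the boundary is not zero, then (S) is solvable on `Ω = φ(D)` for
fewer than `m` values of `lam > 0`. -/
theorem result (φ : ℂ → ℂ) (r : ℝ) (hr : 1 < r) (hφ : DifferentiableOn ℂ φ (ball 0 r))
    (hinj : InjOn φ (ball 0 r)) (i j k m : ℕ) (hijk : i + j + k = 2 * m + 1)
    (hM : moment φ i j k ≠ 0) :
    {lam : ℝ | 0 < lam ∧ Solvable (φ '' ball 0 1) lam}.encard < m := by
  by_contra hcon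
  rw [not_lt] at hcon
  obtain ⟨A, hAs, hAc⟩ := Set.exists_subset_encard_eq hcon
  have hfin : A.Finite := by
    rw [← Set.encard_lt_top_iff, hAc]
    exact ENat.natCast_lt_top m
  have hcard : m ≤ hfin.toFinset.card := by
    have h1 := hfin.encard_eq_coe_toFinset_card
    rw [hAc] at h1
    exact_mod_cast h1.le
  have hA : ∀ lam ∈ hfin.toFinset, 0 < lam ∧ Solvable (φ '' ball 0 1) lam := fun lam h =>
    hAs (hfin.mem_toFinset.1 h)
  have h := Pool.Agent.Helper28.SC.mixed hr hφ hinj m hfin.toFinset hcard hA i j 0 k
    (by rw [zero_add]; exact ⟨m, by exact_mod_cast hijk⟩) (by simp; omega)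
  apply hM
  have hnorm : ∀ t : ℝ, ‖Pool.Agent.E8helper4.FV.xd φ t‖ = ‖deriv φ (exp ((t : ℂ) * I))‖ := by
    intro t
    unfold Pool.Agent.E8helper4.FV.xd
    rw [norm_mul, norm_mul, norm_I, Complex.norm_exp_ofReal_mul_I, one_mul, one_mul]
  have hta : ∀ t, Pool.Agent.Helper28.SC.ta φ t = tangent φ t := by
    intro t
    unfold Pool.Agent.Helper28.SC.ta
    rw [hnorm]; rfl
  have hpa : ∀ t, Pool.Agent.Helper28.SC.pa φ t = foot φ t := by
    intro t
    unfold Pool.Agent.Helper28.SC.pa
    rw [hta]; rfl
  have e : ((moment φ i j k : ℝ) : ℂ) = 0 := by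
    rw [← h]
    unfold moment
    rw [← intervalIntegral.integral_ofReal]
    refine intervalIntegral.integral_congr fun t _ => ?_
    show (((tangent φ t).re ^ i * (tangent φ t).im ^ j * foot φ t ^ k *
      ‖deriv φ (exp ((t : ℂ) * I))‖ : ℝ) : ℂ) = _
    rw [hta, hpa, hnorm, zpow_zero]
    push_cast
    ring
  exact_mod_cast e

end Pool.Agent.Results.MP_83fd13_an.OddMoments
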