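import Pool.Agent.Helper28.SC.Sum

/-!
# A sum rule for the Schiffer frequencies of a domain

Let `Ω = φ(D)`, where `φ` is holomorphic and injective in a disc `|w| < r`, `r > 1`, and `D` is the
open unit disc (by a theorem of Williams every domain on which problem (S) has a solution is of this
kind); `τ` is the unit tangent of the boundary as a complex number, `κ` the curvature.

Theorem: let (S) be solvable on `Ω` for `N` different values `lam_1, ..., lam_N > 0`. Then

`(lam_1 + ... + lam_N) ∮ τ^(2N+3) ds = -16 binom(N+3, 4) ∮ κ² τ^(2N+3) ds`.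

For `N = 1`: `lam ∮ τ⁵ ds = -16 ∮ κ² τ⁵ ds` for every frequency `lam`. So if `∮ τ⁵ ds ≠ 0`, then there
is at most one frequency, it is known in advance, `lam = -16 ∮ κ² τ⁵ ds / ∮ τ⁵ ds`, and Schiffer's
conjecture holds for `Ω` if this number is not real and positive; in any case
`lam |∮ τ⁵ ds| ≤ 16 ∮ κ² ds`.

The proof: let `a = lam / 4`, `S = conj τ / τ` on the boundary. The boundary values `g_k` of the
derivatives `∂_z^k u` of the solution with `u = 1` on the boundary are given by `g_0 = 1`, `g_1 = 0`,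
`g_(k+2) = dg_(k+1)/dz + a S g_k`, and `∮ g_k d(conj z) = 0` (see `OddMoments`). Thus
`a⁻¹ ∮ g_(2N+2) d(conj z)` is a polynomial in `a` of degree `N` with `N` known zeros. Its leading
coefficient is `∮ conj(τ)^(2N+3) ds`, the next one is found by repeated integration by parts:
`4 binom(N+3, 4) ∮ κ² conj(τ)^(2N+3) ds`. Now use Vieta's formula for the sum of the zeros.
-/

set_option autoImplicit false

open Complex MeasureTheory Metric Set ComplexConjugate
open Pool.Agent.Results.MP_83fd13_an.BranchSingularities (Solvable)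

namespace Pool.Agent.Results.MP_83fd13_an.SumRule

/-- the speed `ds/dt` of the boundary curve `t ↦ φ(e^{it})` of `Ω = φ(D)` -/
noncomputable def speed (φ : ℂ → ℂ) (t : ℝ) : ℝ := ‖deriv φ (exp ((t : ℂ) * I))‖

/-- the unit tangent `τ` -/
noncomputable def tangent (φ : ℂ → ℂ) (t : ℝ) : ℂ :=
  I * exp ((t : ℂ) * I) * deriv φ (exp ((t : ℂ) * I)) / (speed φ t : ℂ)

/-- the curvature `κ` -/
noncomputable def curvature (φ : ℂ → ℂ) (t : ℝ) : ℝ :=
  (1 + exp ((t : ℂ) * I) * deriv (deriv φ) (exp ((t : ℂ) * I)) /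
    deriv φ (exp ((t : ℂ) * I))).re / speed φ t

/-- Let `A` be a finite set of values `lam > 0` for which (S) is solvable on `Ω = φ(D)`, with `N`
elements. Then `(∑_{lam ∈ A} lam) ∮ τ^(2N+3) ds = -16 binom(N+3, 4) ∮ κ² τ^(2N+3) ds`. -/
theorem result (φ : ℂ → ℂ) (r : ℝ) (hr : 1 < r) (hφ : DifferentiableOn ℂ φ (ball 0 r))
    (hinj : InjOn φ (ball 0 r)) (A : Finset ℝ)
    (hA : ∀ lam ∈ A, 0 < lam ∧ Solvable (φ '' ball 0 1) lam) :
    ((∑ lam ∈ A, lam : ℝ) : ℂ) *
      ∫ t in (0 : ℝ)..(2 * Real.pi), tangent φ t ^ (2 * A.card + 3) * speed φ t =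
    -16 * (A.card + 3).choose 4 * ∫ t in (0 : ℝ)..(2 * Real.pi),
      (curvature φ t : ℂ) ^ 2 * tangent φ t ^ (2 * A.card + 3) * speed φ t := by
  rcases Nat.eq_zero_or_pos A.card with h0 | h0
  · have : A = ∅ := Finset.card_eq_zero.1 h0
    subst this
    simp [Nat.choose]
  obtain ⟨m, hm⟩ : ∃ m, A.card = m + 1 := ⟨A.card - 1, by omega⟩
  have h := Pool.Agent.Helper28.SC.sum_rule hr hφ hinj m A hm hA
  have hnorm : ∀ t : ℝ, ‖Pool.Agent.E8helper4.FV.xd φ t‖ = speed φ t := by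
    intro t
    unfold Pool.Agent.E8helper4.FV.xd
    rw [norm_mul, norm_mul, norm_I, Complex.norm_exp_ofReal_mul_I, one_mul, one_mul]
    rfl
  have hta : ∀ t, Pool.Agent.Helper28.SC.ta φ t = tangent φ t := by
    intro t
    unfold Pool.Agent.Helper28.SC.ta
    rw [hnorm]; rfl
  have hka : ∀ t, Pool.Agent.E8helper4.FV.kap φ t = curvature φ t := fun t => rfl
  have hc : ∀ t, conj (tangent φ t ^ (-(2 * m + 5 : ℤ))) = tangent φ t ^ (2 * A.card + 3) := by
    intro t
    have h1 := Pool.Agent.Helper28.SC.ta_conj hr hφ hinj t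
    rw [hta] at h1
    rw [map_zpow₀, h1, inv_zpow', neg_neg, ← zpow_natCast]
    congr 1
    rw [hm]
    push_cast
    ring
  have h1 := congrArg conj h
  rw [map_mul, conj_ofReal, map_mul, map_mul, map_neg, Complex.conj_natCast] at h1
  have h2 : conj (Pool.Agent.Helper28.SC.TM φ (-(2 * m + 5 : ℤ)) 0) =
      ∫ t in (0 : ℝ)..(2 * Real.pi), tangent φ t ^ (2 * A.card + 3) * speed φ t := by
    unfold Pool.Agent.Helper28.SC.TM
    rw [Pool.Agent.E8helper13.FV.conj_int]
    refine intervalIntegral.integral_congr fun t _ => ?_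
    show conj (Pool.Agent.Helper28.SC.ta φ t ^ (-(2 * m + 5 : ℤ)) *
      (Pool.Agent.Helper28.SC.pa φ t : ℂ) ^ 0 * (‖Pool.Agent.E8helper4.FV.xd φ t‖ : ℂ)) =
      tangent φ t ^ (2 * A.card + 3) * (speed φ t : ℂ)
    rw [pow_zero, mul_one, map_mul, conj_ofReal, hnorm, hta, hc]
  have h3 : conj (∫ t in (0 : ℝ)..(2 * Real.pi), (Pool.Agent.E8helper4.FV.kap φ t : ℂ) ^ 2 *
      (Pool.Agent.Helper28.SC.ta φ t) ^ (-(2 * m + 5 : ℤ)) *
      (‖Pool.Agent.E8helper4.FV.xd φ t‖ : ℂ)) = ∫ t in (0 : ℝ)..(2 * Real.pi),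
      (curvature φ t : ℂ) ^ 2 * tangent φ t ^ (2 * A.card + 3) * speed φ t := by
    rw [Pool.Agent.E8helper13.FV.conj_int]
    refine intervalIntegral.integral_congr fun t _ => ?_
    show conj ((Pool.Agent.E8helper4.FV.kap φ t : ℂ) ^ 2 *
      (Pool.Agent.Helper28.SC.ta φ t) ^ (-(2 * m + 5 : ℤ)) *
      (‖Pool.Agent.E8helper4.FV.xd φ t‖ : ℂ)) =
      (curvature φ t : ℂ) ^ 2 * tangent φ t ^ (2 * A.card + 3) * (speed φ t : ℂ)
    rw [map_mul, map_mul, map_pow, conj_ofReal, conj_ofReal, hnorm, hta, hc, hka]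
  rw [h2, h3] at h1
  rw [h1, hm]
  have e : (m + 1 + 3).choose 4 = (m + 4).choose 4 := by rw [show m + 1 + 3 = m + 4 by ring]
  rw [e]
  congr 2
  have : conj (16 : ℂ) = 16 := by
    have := Complex.conj_natCast 16
    simpa using this
  rw [this]

end Pool.Agent.Results.MP_83fd13_an.SumRule
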